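import Pool.Agent.U369.TF.Fin2

/-!
# Toads and Frogs: the value of `T^7 □^7 F^6` is neither `1` nor `1*`

By computer search: Left wins the game `T^7 □^7 F^6 - 1`, whoever moves first. Her winning strategy
is a certificate with 17109 positions, which is checked in the kernel.
-/

set_option autoImplicit false

namespace Pool.Agent.Results.MP_a6e7b1_co.SevenToads

open Pool.Agent.U369.TF Pool.Agent.U369.TF.Game

/-- **Negative answer to Q1.** The value of the Toads and Frogs position `T^7 □^7 F^6` is greater
than `1`, and it is neither `1` nor `1*`. So it is not true that the value of `T^a □^a F^(a-1)` is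
`1` or `1*` for all `a ≥ 1`. -/
theorem result :
    (Greater (game (start 7 7 6)) one ∧ ¬ Equal (game (start 7 7 6)) one ∧
      ¬ Equal (game (start 7 7 6)) oneStar) ∧
    ¬ ∀ a : ℕ, 1 ≤ a →
      (Equal (game (start a a (a - 1))) one ∨ Equal (game (start a a (a - 1))) oneStar) := by
  have star : ¬ Equal (game (start 7 7 6)) oneStar := fun h => h.1 (first_star _ second)
  have hone : ¬ Equal (game (start 7 7 6)) one := fun h => h.1 first
  refine ⟨⟨⟨first, second⟩, hone, star⟩, fun H => ?_⟩
  have h7 := H 7 (by decide)
  rw [show (7 - 1 : ℕ) = 6 from by decide] at h7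
  rcases h7 with h | h
  · exact hone h
  · exact star h

end Pool.Agent.Results.MP_a6e7b1_co.SevenToads
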